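import Pool.Agent.H12.NoisyB

set_option autoImplicit false

namespace Pool.Agent.Results.MP_4e78b4_co.Main

open Pointwise

/-- the sumset A + ... + A with `m` summands (the set {0} for m = 0) -/
def msum {n : ℕ} (A : Finset (ZMod n)) : ℕ → Finset (ZMod n)
  | 0 => {0}
  | m + 1 => msum A m + A

/-- the set {0, 1, ..., c-1} read modulo n -/
def noise (n c : ℕ) : Finset (ZMod n) := (Finset.range c).image (fun i : ℕ => (i : ZMod n))

/-- mA + (m-1)C -/
def star {n : ℕ} (C A : Finset (ZMod n)) (m : ℕ) : Finset (ZMod n) := msum A m + msum C (m - 1)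

def chi (n k l c : ℕ) : ℤ := ((n : ℤ) + 2 * (c - 2)) / (k + l) - (c - 2)

def res (n k l c : ℕ) : ℤ :=
  (-(k * chi n k l c) - (k - 1) * (c - 2)) % (Nat.gcd n (k - l) : ℕ)

def L (n k l c : ℕ) : ℤ := ((n : ℤ) + 2 * (c - 2) - res n k l c) / (k + l) - (c - 2)

theorem star_eq {n : ℕ} (C A : Finset (ZMod n)) (j : ℕ) :
    star C A (j + 1) = Pool.Agent.H12.Noisy.X A C j := by
  induction j with
  | zero =>
    show ((0 : Finset (ZMod n)) + A) + 0 = A
    simp
  | succ j ih =>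
    show (msum A (j + 1) + A) + (msum C j + C) = Pool.Agent.H12.Noisy.X A C j + (A + C)
    rw [← ih, add_add_add_comm]
    rfl

theorem result (n k l c : ℕ) (hn : 1 ≤ n) (hl : 1 ≤ l) (hkl : l < k) (hc : 2 ≤ c) :
    IsGreatest {m : ℤ | ∃ A : Finset (ZMod n),
      star (noise n c) A k ∩ star (noise n c) A l = ∅ ∧ (A.card : ℤ) = m}
      (max 0 (L n k l c)) := by
  obtain ⟨k, rfl⟩ : ∃ k', k = k' + 1 := ⟨k - 1, by omega⟩
  obtain ⟨l, rfl⟩ : ∃ l', l = l' + 1 := ⟨l - 1, by omega⟩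
  obtain ⟨t, rfl⟩ : ∃ t, c = t + 2 := ⟨c - 2, by omega⟩
  have hlk : l < k := by omega
  have ar : ∀ a : ℕ, Pool.Agent.H12.Noisy.Feas n k l t a ↔
      (a : ℤ) ≤ L n (k + 1) (l + 1) (t + 2) := fun a =>
    Pool.Agent.H12.Noisy.arith hlk (chi n (k + 1) (l + 1) (t + 2))
      (res n (k + 1) (l + 1) (t + 2)) _
      (by unfold chi; push_cast; ring_nf)
      (by unfold res; rw [Nat.add_sub_add_right]; push_cast; ring_nf)
      (by unfold L; push_cast; ring_nf)
  simp only [star_eq, ← Finset.disjoint_iff_inter_eq_empty]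
  constructor
  · by_cases h : 0 ≤ L n (k + 1) (l + 1) (t + 2)
    · obtain ⟨A, h1, h2⟩ := Pool.Agent.H12.Noisy.lower hlk
        ((ar (L n (k + 1) (l + 1) (t + 2)).toNat).2 (by omega))
      exact ⟨A, h2, by omega⟩
    · refine ⟨∅, ?_, by simp only [Finset.card_empty]; omega⟩
      obtain ⟨k, rfl⟩ : ∃ k', k = k' + 1 := ⟨k - 1, by omega⟩
      simp [Pool.Agent.H12.Noisy.X]
  · rintro m ⟨A, h1, rfl⟩
    rcases A.eq_empty_or_nonempty with rfl | hA
    · simp
    · exact le_max_of_le_right ((ar _).1 (Pool.Agent.H12.Noisy.upper k l t hlk n hn A hA h1))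

end Pool.Agent.Results.MP_4e78b4_co.Main
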